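import Pool.Agent.Helper76.GT.St

/-!
Project GT (MP_b731ff_al): module SCL.  Choice of a scale (real sequences).
-/

set_option autoImplicit false

namespace Pool.Agent.Helper57.GT

open Pool.Agent.Helper76.GT Filter
open scoped Pointwise

universe u

private theorem tele (A : ℕ → ℝ) (hA : Monotone A) (j₀ N m : ℕ) :
    ∀ l : ℕ, j₀ + N + l ≤ m →
    ∑ i ∈ Finset.range N, (A (j₀ + i + l + 1) - A (j₀ + i)) ≤ ((l : ℝ) + 1) * (A m - A 0) := by
  intro l
  induction l with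
  | zero =>
    intro hm
    have h1 : ∑ i ∈ Finset.range N, (A (j₀ + i + 0 + 1) - A (j₀ + i)) = A (j₀ + N) - A j₀ :=
      Finset.sum_range_sub (fun i => A (j₀ + i)) N
    rw [h1]
    have h2 : A (j₀ + N) ≤ A m := hA (by omega)
    have h3 : A 0 ≤ A j₀ := hA (by omega)
    push_cast
    linarith
  | succ l ih =>
    intro hm
    have h0 := ih (by omega)
    have h1 : ∑ i ∈ Finset.range N, (A (j₀ + (i + 1) + l + 1) - A (j₀ + i + l + 1)) =
        A (j₀ + N + l + 1) - A (j₀ + 0 + l + 1) :=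
      Finset.sum_range_sub (fun i => A (j₀ + i + l + 1)) N
    have h2 : A (j₀ + N + l + 1) ≤ A m := hA (by omega)
    have h3 : A 0 ≤ A (j₀ + 0 + l + 1) := hA (by omega)
    have h4 : ∑ i ∈ Finset.range N, (A (j₀ + i + (l + 1) + 1) - A (j₀ + i)) =
        ∑ i ∈ Finset.range N, (A (j₀ + i + l + 1) - A (j₀ + i)) +
        ∑ i ∈ Finset.range N, (A (j₀ + (i + 1) + l + 1) - A (j₀ + i + l + 1)) := by
      rw [← Finset.sum_add_distrib]
      refine Finset.sum_congr rfl fun i _ => ?_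
      have h5 : j₀ + i + (l + 1) + 1 = j₀ + (i + 1) + l + 1 := by omega
      rw [h5]
      ring
    rw [h4, h1]
    push_cast
    linarith

theorem pSCL : SCL := by
  intro A B t c₁ c₂ d l j₀ ht hA hA0 hB hfreq
  by_contra hcon
  push Not at hcon
  have hl : (0 : ℝ) < (l : ℝ) + 1 := by positivity
  have hT : ∀ j, j₀ ≤ j → t * (3 * d + 3) ≤ (A (j + 1) - A j) +
      (A (j + l + 1) - A j) / ((l : ℝ) + 1) + (B (j + l + 1) - B (j + l)) := by
    intro j hj
    have a1 : 0 ≤ A (j + 1) - A j := sub_nonneg.2 (hA (by omega))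
    have a2 : 0 ≤ A (j + l + 1) - A j := sub_nonneg.2 (hA (by omega))
    have a2' : 0 ≤ (A (j + l + 1) - A j) / ((l : ℝ) + 1) := div_nonneg a2 hl.le
    have a3 : 0 ≤ B (j + l + 1) - B (j + l) := sub_nonneg.2 (hB _ _ (by omega) (by omega))
    by_contra hlt
    have hlt := not_le.1 hlt
    have b1 : A (j + 1) - A j ≤ t * (3 * d + 3) := by linarith
    have b2 : A (j + l + 1) - A j ≤ (l + 1) * (t * (3 * d + 3)) := by
      have b0 : (A (j + l + 1) - A j) / ((l : ℝ) + 1) ≤ t * (3 * d + 3) := by linarith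
      rw [div_le_iff₀ hl] at b0
      linarith
    have b3 := hcon j hj b1 b2
    linarith
  have hsum : ∀ N m : ℕ, j₀ + N + l + 1 ≤ m →
      (N : ℝ) * (t * (3 * d + 3)) ≤ 2 * (A m - A 0) + (B m - B j₀) := by
    intro N m hm
    have s0 : (N : ℝ) * (t * (3 * d + 3)) ≤ ∑ i ∈ Finset.range N,
        ((A (j₀ + i + 1) - A (j₀ + i)) + (A (j₀ + i + l + 1) - A (j₀ + i)) / ((l : ℝ) + 1) +
        (B (j₀ + i + l + 1) - B (j₀ + i + l))) := by
      have := Finset.card_nsmul_le_sum (Finset.range N) (fun i =>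
        ((A (j₀ + i + 1) - A (j₀ + i)) + (A (j₀ + i + l + 1) - A (j₀ + i)) / ((l : ℝ) + 1) +
        (B (j₀ + i + l + 1) - B (j₀ + i + l)))) (t * (3 * d + 3))
        (fun i _ => hT (j₀ + i) (by omega))
      simpa [nsmul_eq_mul] using this
    have s1 : ∑ i ∈ Finset.range N, (A (j₀ + i + 1) - A (j₀ + i)) = A (j₀ + N) - A (j₀ + 0) :=
      Finset.sum_range_sub (fun i => A (j₀ + i)) N
    have s2 := tele A hA j₀ N m l (by omega)
    have s2' : ∑ i ∈ Finset.range N, (A (j₀ + i + l + 1) - A (j₀ + i)) / ((l : ℝ) + 1) ≤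
        A m - A 0 := by
      rw [← Finset.sum_div, div_le_iff₀ hl]
      linarith
    have s3 : ∑ i ∈ Finset.range N, (B (j₀ + (i + 1) + l) - B (j₀ + i + l)) =
        B (j₀ + N + l) - B (j₀ + 0 + l) :=
      Finset.sum_range_sub (fun i => B (j₀ + i + l)) N
    have s3' : ∑ i ∈ Finset.range N, (B (j₀ + i + l + 1) - B (j₀ + i + l)) =
        B (j₀ + N + l) - B (j₀ + 0 + l) := by
      rw [← s3]
      refine Finset.sum_congr rfl fun i _ => ?_
      have h5 : j₀ + (i + 1) + l = j₀ + i + l + 1 := by omega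
      rw [h5]
    rw [Finset.sum_add_distrib, Finset.sum_add_distrib, s1, s3'] at s0
    have u1 : A (j₀ + N) ≤ A m := hA (by omega)
    have u2 : A 0 ≤ A (j₀ + 0) := hA (by omega)
    have u3 : B (j₀ + N + l) ≤ B m := hB _ _ (by omega) (by omega)
    have u4 : B j₀ ≤ B (j₀ + 0 + l) := hB _ _ (by omega) (by omega)
    linarith
  obtain ⟨M, hM⟩ := exists_nat_gt
    ((t * (3 * d + 3) * ((l : ℝ) + 1 + j₀) + 2 * c₁ + c₂ - B j₀) / t)
  obtain ⟨m, hm, hm1, hm2⟩ := (frequently_atTop.1 hfreq) (max M (j₀ + l + 1))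
  have hmM : M ≤ m := (le_max_left _ _).trans hm
  have hml : j₀ + l + 1 ≤ m := (le_max_right _ _).trans hm
  obtain ⟨N, hN⟩ := Nat.exists_eq_add_of_le hml
  have h1 := hsum N m (by omega)
  have hNr : (m : ℝ) = (j₀ : ℝ) + l + 1 + N := by rw [hN]; push_cast; ring
  have hMr : (M : ℝ) ≤ m := by exact_mod_cast hmM
  rw [div_lt_iff₀ ht] at hM
  have h2 : (M : ℝ) * t ≤ m * t := mul_le_mul_of_nonneg_right hMr ht.le
  have h3 : (N : ℝ) = (m : ℝ) - ((l : ℝ) + 1 + j₀) := by rw [hNr]; ring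
  rw [h3] at h1
  nlinarith [h1, h2, hM, hm1, hm2, hA0]

end Pool.Agent.Helper57.GT
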